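import Mathlib
import Pool.Agent.H25.TwoCyc

set_option autoImplicit false

namespace Pool.Agent.Results.MP_8cd00c_co.Girth

open SimpleGraph Pool.Agent.H25.TwoCyc

/-- No cycle is monochromatic. -/
def Woody {V K : Type} (G : SimpleGraph V) (c : Sym2 V → K) : Prop :=
  ∀ (u : V) (p : G.Walk u u), p.IsCycle → ¬∃ k, ∀ e ∈ p.edges, c e = k

/-- No broken cycle (a path with at least two edges whose ends are adjacent) is monochromatic. -/
def StronglyWoody {V K : Type} (G : SimpleGraph V) (c : Sym2 V → K) : Prop :=
  ∀ (u v : V) (p : G.Walk u v), p.IsPath → 2 ≤ p.length → G.Adj v u → ¬∃ k, ∀ e ∈ p.edges, c e = k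

lemma cnt {V : Type} [Finite V] [Nonempty V] {H : SimpleGraph V} (h : H.IsAcyclic) :
    H.edgeSet.ncard + 1 ≤ Nat.card V := by
  obtain ⟨T, a, -, b⟩ := connected_top.exists_isTree_le_of_le_of_isAcyclic le_top h
  rw [← (isTree_iff_connected_and_card.1 b).2]
  exact Nat.succ_le_succ (Set.ncard_le_ncard (edgeSet_mono a))

lemma bound {V : Type} [Finite V] {G : SimpleGraph V} {c : Sym2 V → Fin 2}
    (h : StronglyWoody G c) {u v : V} (a : G.Adj u v) : G.edgeSet.ncard + 3 ≤ 2 * Nat.card V := by
  have : Nonempty V := ⟨u⟩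
  let H : Fin 2 → SimpleGraph V := fun k => G ⊓ fromEdgeSet {e | c e = k}
  have key : ∀ k x y (p : (H k).Walk x y), p.IsPath → 2 ≤ p.length → ¬G.Adj y x :=
    fun k x y p b d f => h x y (p.mapLe inf_le_left) (b.mapLe _) (by simpa using d) f
      ⟨k, fun e he => by
        have := p.edges_subset_edgeSet (by simpa using he)
        simp only [H, edgeSet_inf, edgeSet_fromEdgeSet] at this
        exact this.2.1⟩
  have ac : ∀ k, (H k).IsAcyclic := fun k x p hp => by
    cases p with
    | nil => exact hp.ne_nil rfl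
    | cons b q =>
      exact key k _ _ q ((Walk.cons_isCycle_iff _ _).1 hp).1
        (by simpa using hp.three_le_length) b.1
  have ne : c s(u, v) ≠ c s(u, v) + 1 := by omega
  have nr : ¬(H (c s(u, v) + 1)).Reachable u v := fun r => by
    obtain ⟨p, hp⟩ := r.exists_isPath
    refine key _ _ _ p hp ?_ a.symm
    by_contra l
    rcases (by omega : p.length = 0 ∨ p.length = 1) with l | l
    · exact a.ne (Walk.eq_of_length_eq_zero l)
    · exact ne (p.adj_of_length_eq_one l).2.1
  have c1 := cnt (ac (c s(u, v)))
  have c2 := cnt ((ac _).sup_edge_of_not_reachable nr)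
  rw [edgeSet_sup, edgeSet_edge_of_ne a.ne, Set.union_singleton,
    Set.ncard_insert_of_notMem fun m => nr (Adj.reachable ((mem_edgeSet _).1 m))] at c2
  have := (Set.ncard_le_ncard (show G.edgeSet ⊆ (H (c s(u, v))).edgeSet ∪
    (H (c s(u, v) + 1)).edgeSet from fun e he => by
      simp only [H, edgeSet_inf, edgeSet_fromEdgeSet, Set.mem_union, Set.mem_inter_iff, he,
        Set.mem_sdiff, Set.mem_ofPred_eq, Sym2.mem_diagSet, G.not_isDiag_of_mem_edgeSet he]
      simp
      omega)).trans (Set.ncard_union_le _ _)
  omega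

theorem result (g : ℕ) : ∃ (V : Type) (_ : Finite V) (G : SimpleGraph V), g ≤ G.egirth ∧
    (∃ c : Sym2 V → Fin 2, Woody G c) ∧ ∀ c : Sym2 V → Fin 2, ¬StronglyWoody G c := by
  classical
  obtain ⟨X, _, ⟨o⟩, s, h1, h2, h3⟩ := exists_gir (g + 2)
  have nl : ∀ b x, s b x ≠ x := fun b x h =>
    h3 1 (fun _ => x) (fun _ => (b, true)) one_pos (by omega) (fun _ _ => h) (by simp) rfl
  let G : SimpleGraph X := fromEdgeSet {e | ∃ b x, s b x ≠ o ∧ e = s(x, s b x)}
  refine ⟨X, inferInstance, G, le_egirth.2 fun a p hp => ?_,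
    ⟨fun e => if ∃ x, s true x ≠ o ∧ e = s(x, s true x) then 0 else 1, fun u p hp ⟨k, hk⟩ => ?_⟩,
    fun c hc => ?_⟩
  · have : ∀ i, ∃ l, i < p.length → Stp s (p.getVert i) l (p.getVert (i + 1)) := fun i => by
      by_cases hi : i < p.length
      · obtain ⟨⟨b, x, -, e⟩, -⟩ := p.adj_getVert_succ hi
        rcases Sym2.eq_iff.1 e with ⟨a, c⟩ | ⟨a, c⟩
        · exact ⟨(b, true), fun _ => by rw [a, c]; rfl⟩
        · exact ⟨(b, false), fun _ => by rw [a, c]; rfl⟩
      · exact ⟨(true, true), fun a => absurd a hi⟩
    choose l hl using this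
    have t := hp.three_le_length
    by_contra c
    refine h3 p.length p.getVert l (by omega) (by simp at c; omega) hl (fun i hi e => ?_) (by simp)
    have a := hl i (by omega)
    have b := hl (i + 1) hi
    have d : p.getVert i ≠ p.getVert (i + 1 + 1) := fun f => by
      by_cases k : i = 0
      · have := hp.getVert_injOn' (by simp; omega) (by simp; omega) f
        omega
      · have := hp.getVert_injOn (by simp; omega) (by simp; omega) f
        omega
    simp only [Stp, ← e] at a b
    by_contra f
    split_ifs at a b <;> first | exact d (h1 _ (a.trans b.symm)) | exact d (a.symm.trans b) | simp_all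
  · obtain ⟨b, hb⟩ : ∃ b, ∀ e ∈ p.edges, ∃ x, s b x ≠ o ∧ e = s(x, s b x) := by
      fin_cases k
      · exact ⟨true, fun e he => by simpa using hk e he⟩
      · refine ⟨false, fun e he => ?_⟩
        obtain ⟨⟨b, h⟩, -⟩ := edgeSet_fromEdgeSet _ ▸ p.edges_subset_edgeSet he
        cases b
        · exact h
        · simpa [h] using hk e he
    let pos := fun y => Nat.find (h2 b o y)
    have hpos : ∀ x, s b x ≠ o → pos x < pos (s b x) := fun x h => by
      have a := Nat.find_spec (h2 b o (s b x))
      rcases e : Nat.find (h2 b o (s b x)) with _ | n <;> rw [e] at a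
      · exact absurd a.symm h
      · rw [Function.iterate_succ_apply'] at a
        have := Nat.find_min' (h2 b o x) (h1 b a)
        simp only [pos]; omega
    obtain ⟨v, hv, mx⟩ := p.support.toFinset.exists_max_image pos ⟨u, by simp⟩
    rw [List.mem_toFinset] at hv
    have q := hp.rotate hv
    have key : ∀ w, s(v, w) ∈ (p.rotate v hv).edges → s b w = v := fun w hw => by
      have m := (p.rotate_edges v hv).mem_iff.1 hw
      obtain ⟨x, a, e⟩ := hb _ m
      rcases Sym2.eq_iff.1 e with ⟨rfl, rfl⟩ | ⟨c, rfl⟩
      · exact absurd (mx _ (List.mem_toFinset.2 (p.snd_mem_support_of_mem_edges m)))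
          (not_le.2 (hpos _ a))
      · exact c.symm
    exact q.snd_ne_penultimate (h1 b ((key _ (Walk.mk_start_snd_mem_edges q.not_nil)).trans
      (key _ (Sym2.eq_swap ▸ Walk.mk_penultimate_end_mem_edges q.not_nil)).symm))
  · have inj : Function.Injective fun z : Bool × X => s(z.2, s z.1 z.2) := by
      rintro ⟨b, x⟩ ⟨d, y⟩ e
      rcases Sym2.eq_iff.1 e with ⟨rfl, e⟩ | ⟨rfl, e⟩
      · by_contra n
        exact h3 2 (fun i => if i = 1 then s b x else x) (fun i => if i = 0 then (b, true) else
          (d, false)) two_pos (by omega) (fun i hi => by interval_cases i <;> simp [Stp, e])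
          (fun i hi => by obtain rfl : i = 0 := by omega
                          simpa using n) (by simp)
      · exact absurd (by simp) (h3 2 (fun i => if i = 1 then s d y else y) (fun i => if i = 0 then
          (d, true) else (b, true)) two_pos (by omega)
          (fun i hi => by interval_cases i <;> simp [Stp, e]) fun i hi => by split_ifs <;> simp)
    choose r hr using fun b => Finite.injective_iff_surjective.1 (h1 b) o
    have sub : Set.range (fun z : Bool × X => s(z.2, s z.1 z.2)) ⊆
        G.edgeSet ∪ {s(r true, o), s(r false, o)} := by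
      rintro _ ⟨⟨b, x⟩, rfl⟩
      by_cases k : s b x = o
      · obtain rfl := h1 b (k.trans (hr b).symm)
        cases b <;> simp [k]
      · exact .inl ⟨⟨b, x, k, rfl⟩, (nl b x).symm⟩
    have a := (Set.ncard_le_ncard sub).trans (Set.ncard_union_le _ _)
    rw [Set.ncard_range_of_injective inj, Nat.card_prod, Nat.card_eq_fintype_card (α := Bool),
      Fintype.card_bool] at a
    have b := bound hc (u := o) (v := s true o) ⟨⟨true, o, nl _ _, rfl⟩, (nl _ _).symm⟩
    have := Set.ncard_insert_le s(r true, o) {s(r false, o)}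
    rw [Set.ncard_singleton] at this
    omega

end Pool.Agent.Results.MP_8cd00c_co.Girth
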